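import Pool.Agent.X72.EIP.Lists

set_option autoImplicit false
set_option linter.unusedSectionVars false
set_option linter.unusedSimpArgs false

/-!
# Uniqueness of the earliest-ideal-position method: two-model words
-/

namespace Pool.Agent.X72.EIP

open List

variable {ι : Type*} [DecidableEq ι] {F : (ι →₀ ℕ) → Set (List ι)}

/-- Two-model instance. -/
noncomputable abbrev two (i : ι) (a : ℕ) (k : ι) (b : ℕ) : ι →₀ ℕ := Finsupp.single i a + Finsupp.single k b

/-- Three-model instance. -/
noncomputable abbrev three (i : ι) (a : ℕ) (k : ι) (b : ℕ) (c : ι) (n : ℕ) : ι →₀ ℕ :=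
  Finsupp.single i a + Finsupp.single k b + Finsupp.single c n

theorem rw_exists (hM : IsMethod F) (hU : Uniform F) {q : ι →₀ ℕ} (hq : q ≠ 0) {N : Finset ι}
    (hN : N.Nonempty) (hNq : N ⊆ q.support) {S T : List ι} (hS : S ∈ F q)
    (hT : T ∈ F (q.filter (· ∈ N))) : ∃ S' ∈ F q, Rewrites N S T S' := by
  have hq' : q.filter (· ∈ N) ≠ 0 := by
    obtain ⟨x, hx⟩ := hN
    intro h
    have h1 : (q.filter (· ∈ N)) x = q x := Finsupp.filter_apply_pos _ _ hx
    rw [h] at h1
    exact (Finsupp.mem_support_iff.1 (hNq hx)) (by simpa using h1.symm)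
  have h1 := hM.seq _ hq' T hT
  have h2 := hM.seq _ hq' _ (hU q hq N hN hNq S hS).1
  have hp : T.Perm (fl N S) := by
    rw [List.perm_iff_count]
    intro i
    rw [h1 i, ← h2 i]
  have hmem : ∀ x ∈ T, x ∈ N := by
    intro x hx
    have := (hp.mem_iff.1 hx)
    simpa [fl] using (List.mem_filter.1 this).2
  obtain ⟨S', h3⟩ := exists_rewrites hmem hp.length_eq
  exact ⟨S', (hU q hq N hN hNq S hS).2 T hT S' h3, h3⟩

theorem filter_ik {i k c : ι} (hik : i ≠ k) (hic : i ≠ c) (hkc : k ≠ c) (a b n : ℕ) :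
    (three i a k b c n).filter (· ∈ ({i, k} : Finset ι)) = two i a k b := by
  ext x
  rw [Finsupp.filter_apply]
  by_cases h1 : x = i
  · subst h1; simp [hic.symm]
  · by_cases h2 : x = k
    · subst h2; simp [hkc.symm]
    · simp [h1, h2, Finsupp.single_apply, Ne.symm h1, Ne.symm h2]

theorem filter_ic {i k c : ι} (hik : i ≠ k) (hic : i ≠ c) (hkc : k ≠ c) (a b n : ℕ) :
    (three i a k b c n).filter (· ∈ ({i, c} : Finset ι)) = two i a c n := by
  have e : three i a k b c n = three i a c n k b := by unfold three; abel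
  rw [e, filter_ik hic hik hkc.symm]

theorem filter_kc {i k c : ι} (hik : i ≠ k) (hic : i ≠ c) (hkc : k ≠ c) (a b n : ℕ) :
    (three i a k b c n).filter (· ∈ ({k, c} : Finset ι)) = two k b c n := by
  have e : three i a k b c n = three k b c n i a := by unfold three; abel
  rw [e, filter_ik hkc hik.symm hic.symm]

theorem three_apply {i k c : ι} (hik : i ≠ k) (hic : i ≠ c) (hkc : k ≠ c) (a b n : ℕ) :
    three i a k b c n i = a ∧ three i a k b c n k = b ∧ three i a k b c n c = n := by
  refine ⟨?_, ?_, ?_⟩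
  · simp [hik.symm, hic.symm, hik, hic]
  · simp [hik.symm, hkc.symm, hik, hkc]
  · simp [hic.symm, hkc.symm, hic, hkc]

theorem three_ne {i k c : ι} (hik : i ≠ k) (hic : i ≠ c) (hkc : k ≠ c) {a b n : ℕ} (ha : 0 < a) :
    three i a k b c n ≠ 0 := by
  intro h
  have := (three_apply hik hic hkc a b n).1
  rw [h] at this
  simp at this
  omega

theorem two_apply {i k : ι} (hik : i ≠ k) (a b : ℕ) : two i a k b i = a ∧ two i a k b k = b := by
  refine ⟨?_, ?_⟩
  · simp [hik.symm, hik]
  · simp [hik.symm, hik]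

theorem two_ne {i k : ι} (hik : i ≠ k) {a b : ℕ} (ha : 0 < a) : two i a k b ≠ 0 := by
  intro h
  have := (two_apply hik a b).1
  rw [h] at this
  simp at this
  omega

section
variable (hM : IsMethod F) (hU : Uniform F) {i k c : ι} (hik : i ≠ k) (hic : i ≠ c) (hkc : k ≠ c)
  {a b n : ℕ} (ha : 0 < a) (hb : 0 < b) (hn : 0 < n) {S : List ι} (hS : S ∈ F (three i a k b c n))
include hM hU hik hic hkc ha hb hn hS

theorem three_ik : fl {i, k} S ∈ F (two i a k b) ∧
    ∀ T ∈ F (two i a k b), ∃ S' ∈ F (three i a k b c n), Rewrites {i, k} S T S' := by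
  have hq := three_ne hik hic hkc (b := b) (n := n) ha
  obtain ⟨e1, e2, e3⟩ := three_apply hik hic hkc a b n
  have hN : ({i, k} : Finset ι).Nonempty := ⟨i, by simp⟩
  have hsub : ({i, k} : Finset ι) ⊆ (three i a k b c n).support := by
    intro x hx
    rw [Finsupp.mem_support_iff]
    simp only [Finset.mem_insert, Finset.mem_singleton] at hx
    rcases hx with hx | hx
    · subst hx; rw [e1]; omega
    · subst hx; rw [e2]; omega
  have h1 := hU _ hq _ hN hsub S hS
  rw [filter_ik hik hic hkc] at h1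
  refine ⟨h1.1, fun T hT => ?_⟩
  apply rw_exists hM hU hq hN hsub hS
  rw [filter_ik hik hic hkc]; exact hT

theorem three_ic : fl {i, c} S ∈ F (two i a c n) ∧
    ∀ T ∈ F (two i a c n), ∃ S' ∈ F (three i a k b c n), Rewrites {i, c} S T S' := by
  have e : three i a k b c n = three i a c n k b := by unfold three; abel
  rw [e] at hS ⊢
  exact three_ik hM hU hic hik hkc.symm ha hn hb hS

theorem three_kc : fl {k, c} S ∈ F (two k b c n) ∧
    ∀ T ∈ F (two k b c n), ∃ S' ∈ F (three i a k b c n), Rewrites {k, c} S T S' := by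
  have e : three i a k b c n = three k b c n i a := by unfold three; abel
  rw [e] at hS ⊢
  exact three_ik hM hU hkc hik.symm hic.symm hb hn ha hS

end

/-- The word for the instance `(1, 2 M)`. -/
theorem center_word (hM : IsMethod F) (hR : WeaklyReflective F) {i c : ι} (hic : i ≠ c) {m : ℕ}
    (hm : 0 < m) {S : List ι} (hS : S ∈ F (two i 1 c (2 * m))) {P : List ι} (hP : P <+: S) :
    -(m : ℤ) ≤ 2 * m * P.count i - P.count c ∧ 2 * (m : ℤ) * P.count i - P.count c ≤ m := by
  have hseq := hM.seq _ (two_ne hic (by omega)) S hS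
  have h1 : S.count i = 1 := by rw [hseq i, (two_apply hic 1 (2 * m)).1]
  have h2 : S.count c = 2 * m := by rw [hseq c, (two_apply hic 1 (2 * m)).2]
  have hrev := hR i c hic 1 (2 * m) (by omega) (by omega) (by simp) ⟨m, by ring⟩ S hS
  obtain ⟨Q, hQ⟩ := hP
  have hQ2 : Q.reverse <+: S := by
    refine ⟨P.reverse, ?_⟩
    rw [← hrev, ← hQ]; simp
  have hc1 : P.count i + Q.count i = 1 := by rw [← h1, ← hQ, List.count_append]
  have hc2 : P.count c + Q.count c = 2 * m := by rw [← h2, ← hQ, List.count_append]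
  have hP : P <+: S := ⟨Q, hQ⟩
  rcases List.prefix_or_prefix_of_prefix hP hQ2 with h3 | h3
  · have h4 := h3.sublist.count_le i
    have h5 := h3.sublist.count_le c
    rw [List.count_reverse] at h4 h5
    have h6 : P.count i = 0 := by omega
    rw [h6]
    push_cast
    constructor <;> omega
  · have h4 := h3.sublist.count_le i
    have h5 := h3.sublist.count_le c
    rw [List.count_reverse] at h4 h5
    have h6 : P.count i = 1 := by omega
    rw [h6]
    push_cast
    constructor <;> omega

/-- The word for the instance `(a, 2 a M)`. -/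
theorem fine_word (hM : IsMethod F) (hP : Periodic F) (hR : WeaklyReflective F) {i c : ι}
    (hic : i ≠ c) {m a : ℕ} (hm : 0 < m) (ha : 0 < a) :
    ∃ S ∈ F (two i a c (2 * a * m)), ∀ P, P <+: S →
      -(m : ℤ) ≤ 2 * m * P.count i - P.count c ∧ 2 * (m : ℤ) * P.count i - P.count c ≤ m := by
  obtain ⟨S0, hS0⟩ := hM.nonempty (two i 1 c (2 * m)) (two_ne hic (by omega))
  have hseq := hM.seq _ (two_ne hic (by omega)) S0 hS0
  have h1 : S0.count i = 1 := by rw [hseq i, (two_apply hic 1 (2 * m)).1]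
  have h2 : S0.count c = 2 * m := by rw [hseq c, (two_apply hic 1 (2 * m)).2]
  have h3 := hP _ (two_ne hic (by omega)) a ha S0 hS0
  have e : a • two i 1 c (2 * m) = two i a c (2 * a * m) := by
    unfold two
    rw [smul_add, Finsupp.smul_single, Finsupp.smul_single, smul_eq_mul, smul_eq_mul, mul_one]
    congr 2
    ring
  rw [e] at h3
  refine ⟨_, h3, fun P hPp => ?_⟩
  obtain ⟨t, P', h4, h5, h6⟩ := prefix_replicate ha hPp
  have h7 := center_word hM hR hic hm hS0 h5
  rw [h6, List.count_append, List.count_append, count_flatten_replicate,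
    count_flatten_replicate, h1, h2]
  push_cast
  constructor
  · nlinarith [h7.1]
  · nlinarith [h7.2]

/-- Lemma A: some word for `(a, b)` is EIP. -/
theorem lemmaA (hM : IsMethod F) (hP : Periodic F) (hU : Uniform F) (hR : WeaklyReflective F)
    {i k c : ι} (hik : i ≠ k) (hic : i ≠ c) (hkc : k ≠ c) {a b : ℕ} (ha : 0 < a) (hb : 0 < b) :
    ∃ S ∈ F (two i a k b), ∀ P, P <+: S →
      -((a : ℤ) + b) ≤ 2 * b * P.count i - 2 * a * P.count k ∧
        2 * (b : ℤ) * P.count i - 2 * a * P.count k ≤ a + b := by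
  set m : ℕ := b + 1 with hm
  set C : ℕ := 2 * a * b * m with hC
  have hCpos : 0 < C := by positivity
  obtain ⟨T0, hT0, hT0'⟩ := fine_word hM hP hR (i := i) (c := c) hic (m := b * m) (a := a)
    (by positivity) ha
  obtain ⟨T1, hT1, hT1'⟩ := fine_word hM hP hR (i := k) (c := c) hkc (m := a * m) (a := b)
    (by positivity) hb
  have e0 : 2 * a * (b * m) = C := by rw [hC]; ring
  have e1 : 2 * b * (a * m) = C := by rw [hC]; ring
  rw [e0] at hT0
  rw [e1] at hT1
  obtain ⟨S, hS⟩ := hM.nonempty _ (three_ne hik hic hkc (b := b) (n := C) ha)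
  obtain ⟨S1, hS1, hr1⟩ := (three_ic hM hU hik hic hkc ha hb hCpos hS).2 T0 hT0
  obtain ⟨S2, hS2, hr2⟩ := (three_kc hM hU hik hic hkc ha hb hCpos hS1).2 T1 hT1
  refine ⟨_, (three_ik hM hU hik hic hkc ha hb hCpos hS2).1, fun P hPp => ?_⟩
  obtain ⟨P2, hP2, rfl⟩ := prefix_fl hPp
  rw [count_fl (by simp), count_fl (by simp)]
  obtain ⟨P1, hP1, hc1, hc2, _⟩ := rewrites_take hr2 hP2
  have hci : P2.count i = P1.count i := hc1 i (by simp [hik, hic])
  rw [length_pair hkc, length_pair hkc] at hc2
  have hb1 : P1.count k ≤ b := by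
    have h1 := hP1.sublist.count_le k
    have h2 := hM.seq _ (three_ne hik hic hkc (b := b) (n := C) ha) S1 hS1 k
    rw [(three_apply hik hic hkc a b C).2.1] at h2
    omega
  have hb2 : P2.count k ≤ b := by
    have h1 := hP2.sublist.count_le k
    have h2 := hM.seq _ (three_ne hik hic hkc (b := b) (n := C) ha) S2 hS2 k
    rw [(three_apply hik hic hkc a b C).2.1] at h2
    omega
  have hA1 := hT0' (fl {i, c} P1) (by rw [← hr1.2]; exact fl_prefix hP1)
  have hA2 := hT1' (fl {k, c} P2) (by rw [← hr2.2]; exact fl_prefix hP2)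
  rw [count_fl (by simp), count_fl (by simp)] at hA1 hA2
  rw [← hci] at hA1
  push_cast at hA1 hA2
  have hc2' : (P2.count k : ℤ) + P2.count c = P1.count k + P1.count c := by exact_mod_cast hc2
  have hb1' : (P1.count k : ℤ) ≤ b := by exact_mod_cast hb1
  have hb2' : (P2.count k : ℤ) ≤ b := by exact_mod_cast hb2
  have hk0 : (0 : ℤ) ≤ P1.count k := by positivity
  have hk0' : (0 : ℤ) ≤ P2.count k := by positivity
  have hmZ : (m : ℤ) = b + 1 := by rw [hm]; push_cast; ring
  have hbZ : (0 : ℤ) < b := by exact_mod_cast hb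
  set D : ℤ := 2 * b * P2.count i - 2 * a * P2.count k with hD
  have hU1 : (m : ℤ) * D ≤ (a + b) * m + b := by
    rw [hD]; nlinarith [hA1.2, hA2.1]
  have hU2 : -((a + b) * (m : ℤ) + b) ≤ (m : ℤ) * D := by
    rw [hD]; nlinarith [hA1.1, hA2.2]
  constructor
  · by_contra hcon
    push Not at hcon
    have : D + 1 ≤ -((a : ℤ) + b) := hcon
    nlinarith
  · by_contra hcon
    push Not at hcon
    have : (a : ℤ) + b + 1 ≤ D := hcon
    nlinarith

end Pool.Agent.X72.EIP
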