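import Mathlib

set_option autoImplicit false

/-!
# Sequencing methods: definitions (instances, methods, periodic / uniform / reflective, EIP)
-/

namespace Pool.Agent.X72.EIP

variable {ι : Type*} [DecidableEq ι]

/-- `S` is a sequence for the instance `q`: every model `i` occurs exactly `q i` times in the
word `S`. -/
def IsSeq (q : ι →₀ ℕ) (S : List ι) : Prop := ∀ i, S.count i = q i

/-- `S'` is obtained from `S` by rewriting the positions occupied by letters of `N` so that they
read `T`, the other positions being unchanged. -/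
def Rewrites (N : Finset ι) (S T S' : List ι) : Prop :=
  List.Forall₂ (fun x y => (x ∈ N ∧ y ∈ N) ∨ (x ∉ N ∧ y = x)) S S' ∧
    S'.filter (fun x => decide (x ∈ N)) = T

/-- A method assigns to every instance a nonempty set of sequences for it. An instance is a
nonzero finitely supported function, its set of models being its support. -/
structure IsMethod (F : (ι →₀ ℕ) → Set (List ι)) : Prop where
  nonempty : ∀ q, q ≠ 0 → (F q).Nonempty
  seq : ∀ q, q ≠ 0 → ∀ S ∈ F q, IsSeq q S

/-- Periodic methods. -/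
def Periodic (F : (ι →₀ ℕ) → Set (List ι)) : Prop :=
  ∀ q, q ≠ 0 → ∀ m : ℕ, 1 ≤ m → ∀ S ∈ F q, (List.replicate m S).flatten ∈ F (m • q)

/-- Uniform methods. -/
def Uniform (F : (ι →₀ ℕ) → Set (List ι)) : Prop :=
  ∀ q, q ≠ 0 → ∀ N : Finset ι, N.Nonempty → N ⊆ q.support → ∀ S ∈ F q,
    S.filter (fun x => decide (x ∈ N)) ∈ F (q.filter (· ∈ N)) ∧
    ∀ T ∈ F (q.filter (· ∈ N)), ∀ S', Rewrites N S T S' → S' ∈ F q

/-- Reflective methods: every word is `U W Uᴿ`, `W` consisting of exactly one letter `i` for each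
`i` with `q i` odd. -/
def Reflective (F : (ι →₀ ℕ) → Set (List ι)) : Prop :=
  ∀ q, q ≠ 0 → ∀ S ∈ F q, ∃ U W : List ι, S = U ++ W ++ U.reverse ∧
    ∀ i, W.count i = if Odd (q i) then 1 else 0

/-- Weakly reflective methods: the reflection property is required only for two models whose
numbers are coprime and of opposite parity; the word is then a palindrome. -/
def WeaklyReflective (F : (ι →₀ ℕ) → Set (List ι)) : Prop :=
  ∀ i k : ι, i ≠ k → ∀ a b : ℕ, 0 < a → 0 < b → Nat.Coprime a b → Odd (a + b) →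
    ∀ S ∈ F (Finsupp.single i a + Finsupp.single k b), S.reverse = S

/-- The earliest-ideal-position method: list the pairs `(i, j)`, `1 ≤ j ≤ q i`, in nondecreasing
order of `(2 j - 1) Q / (2 q i)`, where `Q` is the sum of the `q i` (ties in any order), and write
the letter `i` for `(i, j)`. -/
def E (q : ι →₀ ℕ) : Set (List ι) :=
  {S | ∃ L : List (ι × ℕ), L.Nodup ∧ (∀ p, p ∈ L ↔ 1 ≤ p.2 ∧ p.2 ≤ q p.1) ∧
    L.Pairwise (fun p p' => ((2 * (p.2 : ℚ) - 1) * (q.sum fun _ n => (n : ℚ))) / (2 * q p.1) ≤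
      ((2 * (p'.2 : ℚ) - 1) * (q.sum fun _ n => (n : ℚ))) / (2 * q p'.1)) ∧
    S = L.map Prod.fst}

end Pool.Agent.X72.EIP
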