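import Pool.Agent.X72.EIP.EProps

set_option autoImplicit false
set_option linter.unusedSectionVars false
set_option linter.unusedSimpArgs false

/-!
# The earliest-ideal-position method has the three properties (II)
-/

namespace Pool.Agent.X72.EIP

open List

variable {ι : Type*} [DecidableEq ι]

theorem mem_E_iff {q : ι →₀ ℕ} (hq : q ≠ 0) {S : List ι} : S ∈ E q ↔ PrefixEIP q S :=
  ⟨prefixEIP_of_mem_E hq, mem_E_of_prefixEIP⟩

theorem E_nonempty (q : ι →₀ ℕ) : (E q).Nonempty := by
  classical
  let X : Finset (ι × ℕ) := q.support.biUnion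
    (fun i => (Finset.Icc 1 (q i)).image (fun j => (i, j)))
  let key : ι × ℕ → ℚ := fun p => ((2 * (p.2 : ℚ) - 1) * (q.sum fun _ n => (n : ℚ))) / (2 * q p.1)
  let le : ι × ℕ → ι × ℕ → Bool := fun p p' => decide (key p ≤ key p')
  refine ⟨(X.toList.mergeSort le).map Prod.fst, X.toList.mergeSort le, ?_, ?_, ?_, rfl⟩
  · exact (List.mergeSort_perm _ _).nodup_iff.2 (Finset.nodup_toList _)
  · intro p
    rw [List.mem_mergeSort, Finset.mem_toList]
    simp only [X, Finset.mem_biUnion, Finset.mem_image, Finset.mem_Icc]
    constructor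
    · rintro ⟨i, hi, j, hj, rfl⟩
      exact hj
    · rintro ⟨h1, h2⟩
      refine ⟨p.1, ?_, p.2, ⟨h1, h2⟩, rfl⟩
      rw [Finsupp.mem_support_iff]
      omega
  · have h := List.pairwise_mergeSort (le := le)
      (fun a b c hab hbc => by
        simp only [le, decide_eq_true_eq] at hab hbc ⊢
        exact hab.trans hbc)
      (fun a b => by
        simp only [le, Bool.or_eq_true, decide_eq_true_eq]
        exact le_total _ _) X.toList
    exact h.imp (fun {a b} hab => by simpa [le, key] using hab)

theorem E_isMethod : IsMethod (E (ι := ι)) where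
  nonempty q _ := E_nonempty q
  seq q hq S hS := ((mem_E_iff hq).1 hS).1

theorem E_periodic : Periodic (E (ι := ι)) := by
  intro q hq m hm S hS
  have hmq : m • q ≠ 0 := by
    rw [smul_ne_zero_iff]
    exact ⟨by omega, hq⟩
  rw [mem_E_iff hq] at hS
  rw [mem_E_iff hmq]
  refine ⟨?_, ?_⟩
  · intro i
    rw [count_flatten_replicate, hS.1 i]
    simp
  · intro P hP i hi k hk
    obtain ⟨t, P', h4, h5, h6⟩ := prefix_replicate hm hP
    have hi' : i ∈ q.support := by
      rw [Finsupp.mem_support_iff] at hi ⊢
      intro h; apply hi; simp [h]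
    have hk' : k ∈ q.support := by
      rw [Finsupp.mem_support_iff] at hk ⊢
      intro h; apply hk; simp [h]
    have h7 := hS.2 P' h5 i hi' k hk'
    rw [h6, List.count_append, List.count_append, count_flatten_replicate,
      count_flatten_replicate, hS.1 i, hS.1 k]
    simp only [Finsupp.smul_apply, smul_eq_mul]
    push_cast
    have hm0 : (0 : ℤ) ≤ m := by positivity
    have := mul_le_mul_of_nonneg_left h7 hm0
    nlinarith

theorem sum_count_fl (N : Finset ι) (S : List ι) :
    ∑ x ∈ N, S.count x = (fl N S).length := by
  have h := Multiset.sum_count_eq_card (s := N) (m := ((fl N S : List ι) : Multiset ι))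
    (by
      intro a ha
      rw [Multiset.mem_coe] at ha
      simpa using (List.mem_filter.1 ha).2)
  rw [Multiset.coe_card] at h
  rw [← h]
  apply Finset.sum_congr rfl
  intro x hx
  rw [Multiset.coe_count, count_fl hx]

theorem E_uniform : Uniform (E (ι := ι)) := by
  intro q hq N hN hNq S hS
  have hfa : ∀ x, x ∈ N → (q.filter (· ∈ N)) x = q x := fun x hx =>
    Finsupp.filter_apply_pos _ _ hx
  have hfn : ∀ x, x ∉ N → (q.filter (· ∈ N)) x = 0 := fun x hx =>
    Finsupp.filter_apply_neg _ _ hx
  have hq' : q.filter (· ∈ N) ≠ 0 := by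
    obtain ⟨x, hx⟩ := hN
    intro h
    have h1 := hfa x hx
    rw [h] at h1
    exact (Finsupp.mem_support_iff.1 (hNq hx)) (by simpa using h1.symm)
  have hsup : ∀ x, x ∈ (q.filter (· ∈ N)).support ↔ x ∈ N := by
    intro x
    rw [Finsupp.mem_support_iff]
    constructor
    · intro h
      by_contra hx
      exact h (hfn x hx)
    · intro hx
      rw [hfa x hx]
      exact Finsupp.mem_support_iff.1 (hNq hx)
  rw [mem_E_iff hq] at hS
  refine ⟨?_, ?_⟩
  · rw [mem_E_iff hq']
    refine ⟨?_, ?_⟩
    · intro x
      by_cases hx : x ∈ N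
      · rw [count_fl hx, hfa x hx, hS.1 x]
      · rw [hfn x hx, List.count_eq_zero]
        intro h
        exact hx (by simpa using (List.mem_filter.1 h).2)
    · intro P hP i hi k hk
      rw [hsup] at hi hk
      obtain ⟨P', h1, rfl⟩ := prefix_fl hP
      rw [count_fl hi, count_fl hk, hfa i hi, hfa k hk]
      exact hS.2 P' h1 i (hNq hi) k (hNq hk)
  · intro T hT S' hr
    rw [mem_E_iff hq'] at hT
    rw [mem_E_iff hq]
    have hTe : fl N S' = T := hr.2
    refine ⟨?_, ?_⟩
    · intro x
      by_cases hx : x ∈ N
      · rw [← count_fl hx, hTe, hT.1 x, hfa x hx]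
      · rw [rel_count hr.1 hx, hS.1 x]
    · intro P' hP' i hi k hk
      obtain ⟨P, hP, hc1, hc2, _⟩ := rewrites_take hr hP'
      rw [← sum_count_fl, ← sum_count_fl] at hc2
      have hTin : ∀ x ∈ N, ∀ y ∈ N,
          (2 * (P'.count x : ℤ) - 1) * q y ≤ (2 * P'.count y + 1) * q x := by
        intro x hx y hy
        have h1 := hT.2 (fl N P') (by rw [← hTe]; exact fl_prefix hP') x ((hsup x).2 hx) y
          ((hsup y).2 hy)
        rwa [count_fl hx, count_fl hy, hfa x hx, hfa y hy] at h1
      have hqpos : ∀ x ∈ q.support, (0 : ℤ) < q x := fun x hx => by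
        have := Nat.pos_of_ne_zero (Finsupp.mem_support_iff.1 hx)
        exact_mod_cast this
      by_cases hiN : i ∈ N
      · by_cases hkN : k ∈ N
        · exact hTin i hiN k hkN
        · rw [hc1 k hkN]
          rcases Nat.lt_or_ge (P.count i) (P'.count i) with hlt | hge
          · -- some `m ∈ N` lost a letter
            obtain ⟨m, hm, hlt2⟩ : ∃ m ∈ N, P'.count m < P.count m := by
              by_contra hcon
              push Not at hcon
              have := Finset.sum_lt_sum hcon ⟨i, hiN, hlt⟩
              omega
            have h1 := hTin i hiN m hm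
            have h2 := hS.2 P hP m (hNq hm) k hk
            have h3 : (P'.count m : ℤ) + 1 ≤ P.count m := by exact_mod_cast hlt2
            have qi := hqpos i hi
            have qk := hqpos k hk
            have qm := hqpos m (hNq hm)
            have h4 : (2 * (P'.count i : ℤ) - 1) * q m ≤ (2 * P.count m - 1) * q i := by nlinarith
            have h5 : ((2 * (P'.count i : ℤ) - 1) * q k) * q m ≤
                ((2 * P.count k + 1) * q i) * q m := by
              have a1 := mul_le_mul_of_nonneg_right h4 qk.le
              have a2 := mul_le_mul_of_nonneg_right h2 qi.le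
              nlinarith
            exact le_of_mul_le_mul_right h5 qm
          · have h1 := hS.2 P hP i hi k hk
            have h2 : (P'.count i : ℤ) ≤ P.count i := by exact_mod_cast hge
            have qk := hqpos k hk
            nlinarith
      · by_cases hkN : k ∈ N
        · rw [hc1 i hiN]
          rcases Nat.lt_or_ge (P'.count k) (P.count k) with hlt | hge
          · obtain ⟨m, hm, hlt2⟩ : ∃ m ∈ N, P.count m < P'.count m := by
              by_contra hcon
              push Not at hcon
              have := Finset.sum_lt_sum hcon ⟨k, hkN, hlt⟩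
              omega
            have h1 := hTin m hm k hkN
            have h2 := hS.2 P hP i hi m (hNq hm)
            have h3 : (P.count m : ℤ) + 1 ≤ P'.count m := by exact_mod_cast hlt2
            have qi := hqpos i hi
            have qk := hqpos k hk
            have qm := hqpos m (hNq hm)
            have h4 : (2 * (P.count i : ℤ) - 1) * q m ≤ (2 * P'.count m - 1) * q i := by nlinarith
            have h5 : ((2 * (P.count i : ℤ) - 1) * q k) * q m ≤
                ((2 * P'.count k + 1) * q i) * q m := by
              have a1 := mul_le_mul_of_nonneg_right h4 qk.le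
              have a2 := mul_le_mul_of_nonneg_right h1 qi.le
              nlinarith
            exact le_of_mul_le_mul_right h5 qm
          · have h1 := hS.2 P hP i hi k hk
            have h2 : (P.count k : ℤ) ≤ P'.count k := by exact_mod_cast hge
            have qi := hqpos i hi
            nlinarith
        · rw [hc1 i hiN, hc1 k hkN]
          exact hS.2 P hP i hi k hk

theorem eq_of_counts {i k : ι} (hik : i ≠ k) : ∀ {S S' : List ι}, S.length = S'.length →
    (∀ x ∈ S, x = i ∨ x = k) → (∀ x ∈ S', x = i ∨ x = k) →
    (∀ p, (S.take p).count i = (S'.take p).count i) → S = S'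
  | [], [], _, _, _, _ => rfl
  | [], _ :: _, h, _, _, _ => by simp at h
  | _ :: _, [], h, _, _, _ => by simp at h
  | x :: S, y :: S', h, h1, h2, h3 => by
    have hxy : x = y := by
      have h4 := h3 1
      simp only [List.take_succ_cons, List.take_zero] at h4
      rcases h1 x (by simp) with hx | hx <;> rcases h2 y (by simp) with hy | hy
      · rw [hx, hy]
      · subst hx; subst hy
        simp [hik.symm] at h4
      · subst hx; subst hy
        simp [hik.symm] at h4
      · rw [hx, hy]
    subst hxy
    congr 1
    apply eq_of_counts hik (by simpa using h) (fun z hz => h1 z (by simp [hz]))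
      (fun z hz => h2 z (by simp [hz]))
    intro p
    have h4 := h3 (p + 1)
    simp only [List.take_succ_cons, List.count_cons] at h4
    omega

theorem prefixEIP_reverse {q : ι →₀ ℕ} {S : List ι} (hS : PrefixEIP q S) :
    PrefixEIP q S.reverse := by
  refine ⟨fun i => by rw [List.count_reverse, hS.1 i], fun P hP i hi k hk => ?_⟩
  obtain ⟨Q, hQ⟩ := hP
  have hS' : S = Q.reverse ++ P.reverse := by
    rw [← List.reverse_reverse S, ← hQ]; simp
  have h1 := hS.2 Q.reverse ⟨P.reverse, hS'.symm⟩ k hk i hi
  have hi' := hS.1 i
  have hk' := hS.1 k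
  rw [hS', List.count_append, List.count_reverse, List.count_reverse] at hi' hk'
  rw [List.count_reverse, List.count_reverse] at h1
  have hi2 : (Q.count i : ℤ) = q i - P.count i := by
    have : (Q.count i : ℤ) + P.count i = q i := by exact_mod_cast hi'
    linarith
  have hk2 : (Q.count k : ℤ) = q k - P.count k := by
    have : (Q.count k : ℤ) + P.count k = q k := by exact_mod_cast hk'
    linarith
  rw [hi2, hk2] at h1
  nlinarith

theorem length_two {i k : ι} (hik : i ≠ k) {S : List ι} (h : ∀ x ∈ S, x = i ∨ x = k) :
    S.length = S.count i + S.count k := by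
  rw [← length_pair hik]
  congr 1
  symm
  apply List.filter_eq_self.2
  intro x hx
  rcases h x hx with h | h <;> simp [h]

theorem E_weaklyReflective : WeaklyReflective (E (ι := ι)) := by
  intro i k hik a b ha hb _ hodd S hS
  have hne := two_ne hik (b := b) ha
  rw [mem_E_iff hne] at hS
  have hS' := prefixEIP_reverse hS
  obtain ⟨e1, e2⟩ := two_apply hik a b
  have hlet : ∀ x ∈ S, x = i ∨ x = k := by
    intro x hx
    by_contra hcon
    push Not at hcon
    have h1 := hS.1 x
    have h2 := List.count_pos_iff.2 hx
    have h3 : two i a k b x = 0 := by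
      simp [hcon.1, hcon.2, Ne.symm hcon.1, Ne.symm hcon.2]
    omega
  have hlet' : ∀ x ∈ S.reverse, x = i ∨ x = k := fun x hx => hlet x (by simpa using hx)
  have hi : i ∈ (two i a k b).support := by rw [Finsupp.mem_support_iff, e1]; omega
  have hk : k ∈ (two i a k b).support := by rw [Finsupp.mem_support_iff, e2]; omega
  apply eq_of_counts hik (by simp) hlet' hlet
  intro p
  have l1 : (S.take p).length = (S.reverse.take p).length := by simp
  rw [length_two hik (fun x hx => hlet x (List.mem_of_mem_take hx)),
    length_two hik (fun x hx => hlet' x (List.mem_of_mem_take hx))] at l1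
  have a1 := hS.2 (S.take p) (List.take_prefix _ _) i hi k hk
  have a2 := hS.2 (S.take p) (List.take_prefix _ _) k hk i hi
  have b1 := hS'.2 (S.reverse.take p) (List.take_prefix _ _) i hi k hk
  have b2 := hS'.2 (S.reverse.take p) (List.take_prefix _ _) k hk i hi
  rw [e1, e2] at a1 a2 b1 b2
  set x := (S.take p).count i
  set y := (S.take p).count k
  set z := (S.reverse.take p).count i
  set w := (S.reverse.take p).count k
  have l2 : (x : ℤ) + y = z + w := by exact_mod_cast l1
  have hab : (0 : ℤ) < (a : ℤ) + b := by
    have : 0 < a + b := by omega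
    exact_mod_cast this
  -- `2 (a + b) (x - z)` has absolute value at most `2 (a + b)`
  have k1 : 2 * ((a : ℤ) + b) * (x - z) ≤ 2 * (a + b) := by nlinarith
  have k2 : -(2 * ((a : ℤ) + b)) ≤ 2 * ((a : ℤ) + b) * (x - z) := by nlinarith
  have k3 : (x : ℤ) - z ≤ 1 := by
    by_contra hcon
    push Not at hcon
    nlinarith
  have k4 : -1 ≤ (x : ℤ) - z := by
    by_contra hcon
    push Not at hcon
    nlinarith
  obtain ⟨c, hc⟩ := hodd
  have hcZ : (a : ℤ) + b = 2 * c + 1 := by exact_mod_cast hc
  rcases (by omega : (x : ℤ) - z = 1 ∨ (x : ℤ) - z = 0 ∨ (x : ℤ) - z = -1) with h | h | h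
  · exfalso
    have hx : (x : ℤ) = z + 1 := by linarith
    have hy : (y : ℤ) = w - 1 := by linarith
    rw [hx, hy] at a1
    have t1 : 2 * (b : ℤ) * z - 2 * a * w = -(a + b) := by nlinarith
    have t2 : 2 * ((b : ℤ) * z - a * w) = -(2 * c + 1) := by linarith
    omega
  · have : (x : ℤ) = z := by linarith
    have h' : x = z := by exact_mod_cast this
    exact h'.symm
  · exfalso
    have hx : (x : ℤ) = z - 1 := by linarith
    have hy : (y : ℤ) = w + 1 := by linarith
    rw [hx, hy] at a2
    have t1 : 2 * (b : ℤ) * z - 2 * a * w = a + b := by nlinarith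
    have t2 : 2 * ((b : ℤ) * z - a * w) = 2 * c + 1 := by linarith
    omega

end Pool.Agent.X72.EIP
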