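import Pool.Agent.X72.EIP.Main

set_option autoImplicit false
set_option linter.unusedSectionVars false
set_option linter.unusedSimpArgs false

/-!
# The earliest-ideal-position method has the three properties
-/

namespace Pool.Agent.X72.EIP

open List

variable {ι : Type*} [DecidableEq ι]

theorem count_map_fst (L : List (ι × ℕ)) (i : ι) :
    (L.map Prod.fst).count i = (L.filter (fun p => decide (p.1 = i))).length := by
  induction L with
  | nil => rfl
  | cons p L ih =>
    rw [List.map_cons, List.count_cons, List.filter_cons, ih]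
    by_cases h : p.1 = i
    · simp [h]
    · simp [h]

theorem exists_ge {L : List (ι × ℕ)} (hnd : L.Nodup) {i : ι} (h1 : ∀ p ∈ L, 1 ≤ p.2)
    (hpos : 0 < (L.map Prod.fst).count i) : ∃ j, (i, j) ∈ L ∧ (L.map Prod.fst).count i ≤ j := by
  by_contra hcon
  push Not at hcon
  set n := (L.map Prod.fst).count i with hn
  rw [count_map_fst] at hn
  set L' := L.filter (fun p => decide (p.1 = i)) with hL'
  have hnd' : (L'.map Prod.snd).Nodup := by
    apply List.Nodup.map_on _ (hnd.filter _)
    intro x hx y hy hxy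
    have hx1 : x.1 = i := by simpa using (List.mem_filter.1 hx).2
    have hy1 : y.1 = i := by simpa using (List.mem_filter.1 hy).2
    exact Prod.ext (by rw [hx1, hy1]) hxy
  have hsub : (L'.map Prod.snd).toFinset ⊆ Finset.Icc 1 (n - 1) := by
    intro j hj
    rw [List.mem_toFinset, List.mem_map] at hj
    obtain ⟨p, hp, rfl⟩ := hj
    have hp1 : p.1 = i := by simpa using (List.mem_filter.1 hp).2
    have hpL := (List.mem_filter.1 hp).1
    have h2 := hcon p.2 (by rw [← hp1]; exact hpL)
    have h3 := h1 p hpL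
    rw [Finset.mem_Icc]
    omega
  have := Finset.card_le_card hsub
  rw [List.toFinset_card_of_nodup hnd', Nat.card_Icc, List.length_map] at this
  omega

theorem exists_le' {L : List (ι × ℕ)} (hnd : L.Nodup) {k : ι} {m : ℕ}
    (h1 : ∀ p ∈ L, p.1 = k → p.2 ≤ m)
    (hpos : 0 < (L.map Prod.fst).count k) :
    ∃ l, (k, l) ∈ L ∧ l + (L.map Prod.fst).count k ≤ m + 1 := by
  by_contra hcon
  push Not at hcon
  set n := (L.map Prod.fst).count k with hn
  rw [count_map_fst] at hn
  set L' := L.filter (fun p => decide (p.1 = k)) with hL'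
  have hnd' : (L'.map Prod.snd).Nodup := by
    apply List.Nodup.map_on _ (hnd.filter _)
    intro x hx y hy hxy
    have hx1 : x.1 = k := by simpa using (List.mem_filter.1 hx).2
    have hy1 : y.1 = k := by simpa using (List.mem_filter.1 hy).2
    exact Prod.ext (by rw [hx1, hy1]) hxy
  have hsub : (L'.map Prod.snd).toFinset ⊆ Finset.Icc (m + 2 - n) m := by
    intro j hj
    rw [List.mem_toFinset, List.mem_map] at hj
    obtain ⟨p, hp, rfl⟩ := hj
    have hp1 : p.1 = k := by simpa using (List.mem_filter.1 hp).2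
    have hpL := (List.mem_filter.1 hp).1
    have h2 := hcon p.2 (by rw [← hp1]; exact hpL)
    have h3 := h1 p hpL hp1
    rw [Finset.mem_Icc]
    omega
  have := Finset.card_le_card hsub
  rw [List.toFinset_card_of_nodup hnd', Nat.card_Icc, List.length_map] at this
  omega

theorem Q_nonneg (q : ι →₀ ℕ) : (0 : ℚ) ≤ q.sum fun _ n => (n : ℚ) :=
  Finset.sum_nonneg (fun _ _ => by positivity)

theorem Q_pos {q : ι →₀ ℕ} (hq : q ≠ 0) : (0 : ℚ) < q.sum fun _ n => (n : ℚ) := by
  obtain ⟨i, hi⟩ := Finsupp.support_nonempty_iff.2 hq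
  apply Finset.sum_pos' (fun _ _ => by positivity)
  refine ⟨i, hi, ?_⟩
  have := Nat.pos_of_ne_zero (Finsupp.mem_support_iff.1 hi)
  show (0 : ℚ) < (q i : ℚ)
  exact_mod_cast this

theorem key_of {q : ι →₀ ℕ} {i k : ι} {j l : ℕ} (hi : 0 < q i) (hk : 0 < q k)
    (h : (2 * (j : ℤ) - 1) * q k ≤ (2 * l - 1) * q i) :
    ((2 * (j : ℚ) - 1) * (q.sum fun _ n => (n : ℚ))) / (2 * q i) ≤
      ((2 * (l : ℚ) - 1) * (q.sum fun _ n => (n : ℚ))) / (2 * q k) := by
  have hi' : (0 : ℚ) < q i := by exact_mod_cast hi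
  have hk' : (0 : ℚ) < q k := by exact_mod_cast hk
  rw [div_le_div_iff₀ (by positivity) (by positivity)]
  have h' : (2 * (j : ℚ) - 1) * q k ≤ (2 * l - 1) * q i := by exact_mod_cast h
  have := mul_le_mul_of_nonneg_right h' (Q_nonneg q)
  nlinarith

theorem of_key {q : ι →₀ ℕ} (hq : q ≠ 0) {i k : ι} {j l : ℕ} (hi : 0 < q i) (hk : 0 < q k)
    (h : ((2 * (j : ℚ) - 1) * (q.sum fun _ n => (n : ℚ))) / (2 * q i) ≤
      ((2 * (l : ℚ) - 1) * (q.sum fun _ n => (n : ℚ))) / (2 * q k)) :
    (2 * (j : ℤ) - 1) * q k ≤ (2 * l - 1) * q i := by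
  have hi' : (0 : ℚ) < q i := by exact_mod_cast hi
  have hk' : (0 : ℚ) < q k := by exact_mod_cast hk
  rw [div_le_div_iff₀ (by positivity) (by positivity)] at h
  have hQ := Q_pos hq
  have h' : ((2 * (j : ℚ) - 1) * q k) * (q.sum fun _ n => (n : ℚ)) ≤
      ((2 * l - 1) * q i) * (q.sum fun _ n => (n : ℚ)) := by nlinarith
  have h'' := le_of_mul_le_mul_right h' hQ
  exact_mod_cast h''

theorem isSeq_of_list {q : ι →₀ ℕ} {L : List (ι × ℕ)} (hnd : L.Nodup)
    (hmem : ∀ p, p ∈ L ↔ 1 ≤ p.2 ∧ p.2 ≤ q p.1) : IsSeq q (L.map Prod.fst) := by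
  intro i
  rw [count_map_fst]
  have hp : (L.filter (fun p => decide (p.1 = i))).Perm
      ((List.range' 1 (q i)).map (fun j => (i, j))) := by
    rw [List.perm_ext_iff_of_nodup (hnd.filter _)
      ((List.nodup_range' (h := by norm_num)).map (fun a b h => (Prod.mk.inj h).2))]
    rintro ⟨x, j⟩
    rw [List.mem_filter, hmem, List.mem_map]
    constructor
    · rintro ⟨⟨h1, h2⟩, h3⟩
      have h3' : x = i := by simpa using h3
      subst h3'
      refine ⟨j, ?_, rfl⟩
      rw [List.mem_range'_1]
      simp only at h1 h2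
      omega
    · rintro ⟨j', h1, h2⟩
      rw [List.mem_range'_1] at h1
      obtain ⟨rfl, rfl⟩ := Prod.mk.inj h2
      refine ⟨⟨by simpa using h1.1, by simp only; omega⟩, by simp⟩
  rw [hp.length_eq, List.length_map, List.length_range']

theorem prefixEIP_of_mem_E {q : ι →₀ ℕ} (hq : q ≠ 0) {S : List ι} (hS : S ∈ E q) :
    PrefixEIP q S := by
  obtain ⟨L, hnd, hmem, hsort, rfl⟩ := hS
  have hseq := isSeq_of_list hnd hmem
  refine ⟨hseq, fun P hP i hi k hk => ?_⟩
  obtain ⟨Q, hQ⟩ := hP
  obtain ⟨L1, L2, rfl, rfl, rfl⟩ := List.map_eq_append_iff.1 hQ.symm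
  have hqi : 0 < q i := Nat.pos_of_ne_zero (Finsupp.mem_support_iff.1 hi)
  have hqk : 0 < q k := Nat.pos_of_ne_zero (Finsupp.mem_support_iff.1 hk)
  have hqiZ : (0 : ℤ) < q i := by exact_mod_cast hqi
  have hqkZ : (0 : ℤ) < q k := by exact_mod_cast hqk
  have hci := hseq i
  have hck := hseq k
  rw [List.map_append, List.count_append] at hci hck
  rw [List.nodup_append] at hnd
  rw [List.pairwise_append] at hsort
  set c1 := (L1.map Prod.fst).count i with hc1
  set c2 := (L1.map Prod.fst).count k with hc2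
  rcases Nat.eq_zero_or_pos c1 with h0 | h0
  · rw [h0]
    push_cast
    have : (0 : ℤ) ≤ c2 := by positivity
    nlinarith
  rcases Nat.lt_or_ge c2 (q k) with h1 | h1
  · obtain ⟨j, hj1, hj2⟩ := exists_ge hnd.1 (i := i)
      (fun p hp => ((hmem p).1 (List.mem_append_left _ hp)).1) h0
    obtain ⟨l, hl1, hl2⟩ := exists_le' hnd.2.1 (k := k) (m := q k)
      (fun p hp hpk => by rw [← hpk]; exact ((hmem p).1 (List.mem_append_right _ hp)).2)
      (by omega)
    have h2 := of_key hq hqi hqk (hsort.2.2 _ hj1 _ hl1)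
    have h3 : (c1 : ℤ) ≤ j := by exact_mod_cast hj2
    have h4 : (l : ℤ) ≤ c2 + 1 := by
      have : l ≤ c2 + 1 := by omega
      exact_mod_cast this
    nlinarith
  · have h2 : (q k : ℤ) ≤ c2 := by exact_mod_cast h1
    have h3 : (c1 : ℤ) ≤ q i := by
      have : c1 ≤ q i := by omega
      exact_mod_cast this
    nlinarith

theorem mem_E_of_prefixEIP {q : ι →₀ ℕ} {S : List ι} (hS : PrefixEIP q S) :
    S ∈ E q := by
  have main : ∀ S : List ι, (∀ x ∈ S, x ∈ q.support) →
      (∀ P, P <+: S → ∀ i ∈ q.support, ∀ k ∈ q.support,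
        (2 * (P.count i : ℤ) - 1) * q k ≤ (2 * P.count k + 1) * q i) →
      ∃ L : List (ι × ℕ), L.Nodup ∧ (∀ p, p ∈ L ↔ 1 ≤ p.2 ∧ p.2 ≤ S.count p.1) ∧
      L.Pairwise (fun p p' => ((2 * (p.2 : ℚ) - 1) * (q.sum fun _ n => (n : ℚ))) / (2 * q p.1) ≤
        ((2 * (p'.2 : ℚ) - 1) * (q.sum fun _ n => (n : ℚ))) / (2 * q p'.1)) ∧
      S = L.map Prod.fst := by
    intro S
    induction S using List.reverseRecOn with
    | nil =>
      intro _ _
      refine ⟨[], List.nodup_nil, ?_, List.Pairwise.nil, rfl⟩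
      intro p
      simp
      omega
    | append_singleton S a ih =>
      intro hsup hpre
      obtain ⟨L, h1, h2, h3, h4⟩ := ih (fun x hx => hsup x (by simp [hx]))
        (fun P hP => hpre P (hP.trans (List.prefix_append _ _)))
      refine ⟨L ++ [(a, S.count a + 1)], ?_, ?_, ?_, ?_⟩
      · rw [List.nodup_append]
        refine ⟨h1, List.nodup_singleton _, ?_⟩
        intro p hp p' hp' e
        rw [List.mem_singleton] at hp'
        subst e
        rw [hp', h2] at hp
        simp only at hp
        omega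
      · rintro ⟨x, j⟩
        rw [List.mem_append, List.mem_singleton, h2, List.count_append]
        simp only [Prod.mk.injEq]
        by_cases hx : x = a
        · subst hx
          simp only [List.count_singleton_self, true_and]
          omega
        · have : List.count x [a] = 0 := by
            rw [List.count_singleton]; simp [Ne.symm hx]
          simp [hx, this]
      · rw [List.pairwise_append]
        refine ⟨h3, List.pairwise_singleton _ _, ?_⟩
        rintro ⟨i, j⟩ hp ⟨x, l⟩ hp'
        rw [List.mem_singleton] at hp'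
        obtain ⟨rfl, rfl⟩ := Prod.mk.inj hp'
        have hpm := (h2 (i, j)).1 hp
        simp only at hpm
        have hiS : i ∈ S := List.count_pos_iff.1 (by omega)
        have his := hsup i (by simp [hiS])
        have has := hsup x (by simp)
        have hqi : 0 < q i := Nat.pos_of_ne_zero (Finsupp.mem_support_iff.1 his)
        have hqa : 0 < q x := Nat.pos_of_ne_zero (Finsupp.mem_support_iff.1 has)
        apply key_of hqi hqa
        have h5 := hpre S (List.prefix_append _ _) i his x has
        have h6 : (j : ℤ) ≤ S.count i := by exact_mod_cast hpm.2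
        have hqaZ : (0 : ℤ) < q x := by exact_mod_cast hqa
        push_cast
        nlinarith
      · rw [List.map_append, ← h4]; rfl
  obtain ⟨L, h1, h2, h3, h4⟩ := main S (by
    intro x hx
    rw [Finsupp.mem_support_iff, ← hS.1 x]
    exact (List.count_pos_iff.2 hx).ne') hS.2
  refine ⟨L, h1, ?_, h3, h4⟩
  intro p
  rw [h2, hS.1]

end Pool.Agent.X72.EIP
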