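import Pool.Agent.X72.EIP.Core

set_option autoImplicit false
set_option linter.unusedSectionVars false
set_option linter.unusedSimpArgs false

/-!
# Uniqueness of the earliest-ideal-position method: the doubling argument
-/

namespace Pool.Agent.X72.EIP

open List

variable {ι : Type*} [DecidableEq ι] {F : (ι →₀ ℕ) → Set (List ι)}

theorem cb_mono (r i : ι) : ∀ (S : List ι) (n : ℕ), cb r i n S ≤ cb r i (n + 1) S
  | [], n => by simp [cb]
  | x :: S, 0 => by
    have := cb_mono r i S 0
    simp only [cb]
    split_ifs <;> omega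
  | x :: S, n + 1 => by
    have h1 := cb_mono r i S n
    have h2 := cb_mono r i S (n + 1)
    simp only [cb]
    split_ifs <;> omega

theorem count_le_cb {r i : ι} (hir : i ≠ r) : ∀ (P Q : List ι),
    P.count i ≤ cb r i (P.count r) (P ++ Q)
  | [], Q => by simp
  | x :: P, Q => by
    have ih := count_le_cb hir P Q
    by_cases hx : x = r
    · subst hx
      rw [List.count_cons_self, List.count_cons_of_ne hir.symm, List.cons_append, cb, if_pos rfl]
      exact ih
    · rw [List.count_cons_of_ne hx, List.count_cons, List.cons_append]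
      rcases hn : P.count r with _ | n
      · rw [hn] at ih
        rw [cb, if_neg hx]
        by_cases hxi : x = i
        · simp [hxi]; omega
        · simp [hxi]; omega
      · rw [hn] at ih
        rw [cb, if_neg hx]
        by_cases hxi : x = i
        · simp [hxi]; omega
        · simp [hxi]; omega

theorem cb_le_count {r i : ι} (hir : i ≠ r) : ∀ (P Q : List ι) (n : ℕ), n < P.count r →
    cb r i n (P ++ Q) ≤ P.count i
  | [], Q, n, h => by simp at h
  | x :: P, Q, n, h => by
    by_cases hx : x = r
    · subst hx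
      rw [List.count_cons_self] at h
      rw [List.count_cons_of_ne hir.symm, List.cons_append]
      rcases n with _ | n
      · rw [cb, if_pos rfl]; omega
      · rw [cb, if_pos rfl]
        exact cb_le_count hir P Q n (by omega)
    · rw [List.count_cons_of_ne hx] at h
      have ih := cb_le_count hir P Q n h
      rw [List.count_cons, List.cons_append]
      rcases n with _ | n
      · rw [cb, if_neg hx]
        by_cases hxi : x = i
        · simp [hxi]; omega
        · simp [hxi]; omega
      · rw [cb, if_neg hx]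
        by_cases hxi : x = i
        · simp [hxi]; omega
        · simp [hxi]; omega

/-- The word for the instance `(1, 1)`. -/
theorem pair_word (hM : IsMethod F) {i k : ι} (hik : i ≠ k) {T : List ι}
    (hT : T ∈ F (two i 1 k 1)) : T = [i, k] ∨ T = [k, i] := by
  have hseq := hM.seq _ (two_ne hik (by omega)) T hT
  have hp : T.Perm [i, k] := by
    rw [List.perm_iff_count]
    intro x
    rw [hseq x]
    by_cases h1 : x = i
    · subst h1; rw [(two_apply hik 1 1).1]; simp [hik.symm]
    · by_cases h2 : x = k
      · subst h2; rw [(two_apply hik 1 1).2]; simp [hik]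
      · simp [h1, h2, Ne.symm h1, Ne.symm h2]
  have hl := hp.length_eq
  rcases T with _ | ⟨x, _ | ⟨y, _ | ⟨z, T⟩⟩⟩
  · simp at hl
  · simp at hl
  · have hx : x ∈ [i, k] := hp.mem_iff.1 (by simp)
    have hy : y ∈ [i, k] := hp.mem_iff.1 (by simp)
    have hi : i ∈ [x, y] := hp.mem_iff.2 (by simp)
    have hk : k ∈ [x, y] := hp.mem_iff.2 (by simp)
    simp only [List.mem_cons, List.not_mem_nil, or_false] at hx hy hi hk
    rcases hx with hx | hx
    · subst hx
      rcases hk with hk | hk
      · exact absurd hk hik.symm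
      · subst hk; exact Or.inl rfl
    · subst hx
      rcases hi with hi | hi
      · exact absurd hi hik
      · subst hi; exact Or.inr rfl
  · simp at hl

theorem prefix_pair {x y : ι} {P : List ι} (h : P <+: [x, y]) :
    P = [] ∨ P = [x] ∨ P = [x, y] := by
  rcases P with _ | ⟨z, _ | ⟨w, _ | ⟨v, P⟩⟩⟩
  · exact Or.inl rfl
  · rw [List.cons_prefix_cons] at h
    rw [h.1]; exact Or.inr (Or.inl rfl)
  · rw [List.cons_prefix_cons, List.cons_prefix_cons] at h
    rw [h.1, h.2.1]; exact Or.inr (Or.inr rfl)
  · have := h.length_le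
    simp at this

/-- The word for the instance `(q, q)`. -/
theorem alt_word (hM : IsMethod F) (hP : Periodic F) {i k : ι} (hik : i ≠ k) {q : ℕ}
    (hq : 0 < q) : ∃ T ∈ F (two i q k q),
      (∀ P, P <+: T → P.count k ≤ P.count i ∧ P.count i ≤ P.count k + 1) ∨
      (∀ P, P <+: T → P.count i ≤ P.count k ∧ P.count k ≤ P.count i + 1) := by
  obtain ⟨T0, hT0⟩ := hM.nonempty (two i 1 k 1) (two_ne hik (by omega))
  have h3 := hP _ (two_ne hik (by omega)) q hq T0 hT0
  have e : q • two i 1 k 1 = two i q k q := by
    unfold two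
    rw [smul_add, Finsupp.smul_single, Finsupp.smul_single, smul_eq_mul, mul_one]
  rw [e] at h3
  refine ⟨_, h3, ?_⟩
  rcases pair_word hM hik hT0 with h | h
  · left
    intro P hPp
    obtain ⟨t, P', h4, h5, h6⟩ := prefix_replicate hq hPp
    rw [h6, List.count_append, List.count_append, count_flatten_replicate,
      count_flatten_replicate]
    subst h
    rcases prefix_pair h5 with h | h | h <;> subst h <;> simp [hik, hik.symm]
  · right
    intro P hPp
    obtain ⟨t, P', h4, h5, h6⟩ := prefix_replicate hq hPp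
    rw [h6, List.count_append, List.count_append, count_flatten_replicate,
      count_flatten_replicate]
    subst h
    rcases prefix_pair h5 with h | h | h <;> subst h <;> simp [hik, hik.symm]

/-- Lemma C: a word for `(q, R)`, `q` even, `R` odd, coprime, is nearly EIP. -/
theorem lemmaC (hM : IsMethod F) (hP : Periodic F) (hU : Uniform F) (hR : WeaklyReflective F)
    {i k r : ι} (hik : i ≠ k) (hir : i ≠ r) (hkr : k ≠ r) {q R : ℕ} (hq : 0 < q) (hqe : Even q)
    (hRo : Odd R) (hcop : Nat.Coprime q R) (hqR : q < R) {V : List ι}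
    (hV : V ∈ F (two i q r R)) {P : List ι} (hPV : P <+: V) :
    -((q : ℤ) + R + 2 * q ^ 2) ≤ 2 * R * P.count i - 2 * q * P.count r ∧
      2 * (R : ℤ) * P.count i - 2 * q * P.count r ≤ q + R + 2 * q ^ 2 := by
  have hRpos : 0 < R := by omega
  have hne := three_ne hik hir hkr (b := q) (n := R) hq
  obtain ⟨e1, e2, e3⟩ := three_apply hik hir hkr q q R
  obtain ⟨S, hS⟩ := hM.nonempty _ hne
  obtain ⟨Sa, hSa, hra⟩ := (three_ic hM hU hik hir hkr hq hq hRpos hS).2 V hV
  obtain ⟨V', hV', hEIP⟩ := lemmaA hM hP hU hR hkr hik.symm hir.symm hq hRpos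
  obtain ⟨Sb, hSb, hrb⟩ := (three_kc hM hU hik hir hkr hq hq hRpos hSa).2 V' hV'
  obtain ⟨T, hT, hTalt⟩ := alt_word hM hP hik hq
  obtain ⟨Sc, hSc, hrc⟩ := (three_ik hM hU hik hir hkr hq hq hRpos hSb).2 T hT
  have hodd : Odd (q + R) := by
    rw [Nat.odd_add]
    constructor
    · intro h; exact absurd hqe (by rwa [Nat.not_even_iff_odd])
    · intro h; exact absurd hRo (by rwa [Nat.not_odd_iff_even])
  have pal : ∀ {S' : List ι}, S' ∈ F (three i q k q r R) →
      (fl {i, r} S').reverse = fl {i, r} S' ∧ (fl {k, r} S').reverse = fl {k, r} S' := by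
    intro S' hS'
    exact ⟨hR i r hir q R hq hRpos hcop hodd _ (three_ic hM hU hik hir hkr hq hq hRpos hS').1,
      hR k r hkr q R hq hRpos hcop hodd _ (three_kc hM hU hik hir hkr hq hq hRpos hS').1⟩
  have cnt : ∀ {S' : List ι}, S' ∈ F (three i q k q r R) →
      S'.count i = q ∧ S'.count k = q ∧ S'.count r = R := by
    intro S' hS'
    have := hM.seq _ hne S' hS'
    exact ⟨by rw [this i, e1], by rw [this k, e2], by rw [this r, e3]⟩
  obtain ⟨cb1, cb2, cb3⟩ := cnt hSb
  obtain ⟨cc1, cc2, cc3⟩ := cnt hSc
  -- reflection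
  have rb : ∀ n, n < R → cb r i n Sb + cb r i (R - 1 - n) Sb = q ∧
      cb r k n Sb + cb r k (R - 1 - n) Sb = q := by
    intro n hn
    have h1 := cb_reflect hir (pal hSb).1 (n := n) (by omega)
    have h2 := cb_reflect hkr (pal hSb).2 (n := n) (by omega)
    rw [cb3, cb1] at h1
    rw [cb3, cb2] at h2
    exact ⟨h1, h2⟩
  have rc : ∀ n, n < R → cb r i n Sc + cb r i (R - 1 - n) Sc = q ∧
      cb r k n Sc + cb r k (R - 1 - n) Sc = q := by
    intro n hn
    have h1 := cb_reflect hir (pal hSc).1 (n := n) (by omega)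
    have h2 := cb_reflect hkr (pal hSc).2 (n := n) (by omega)
    rw [cc3, cc1] at h1
    rw [cc3, cc2] at h2
    exact ⟨h1, h2⟩
  -- sums agree, and alternation
  have sums : ∀ n, n < R → cb r i n Sb + cb r k n Sb = cb r i n Sc + cb r k n Sc ∧
      ∃ A, A <+: Sc ∧ cb r i n Sc = A.count i ∧ cb r k n Sc = A.count k := by
    intro n hn
    obtain ⟨A, B, h1, h2⟩ := exists_split (r := r) (S := Sb) (n := n) (by omega)
    have h3 := hrc.1
    rw [h1] at h3
    obtain ⟨A', B', h4, h5⟩ := rel_split (N := {i, k}) (by simp [hir.symm, hkr.symm]) h3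
    have h6 : A'.count r = n := by
      rw [rel_count h5 (by simp [hir.symm, hkr.symm]), h2]
    have h7 := rel_length h5
    rw [length_pair hik, length_pair hik] at h7
    rw [h1, h4, cb_eq hir _ _ _ h2, cb_eq hkr _ _ _ h2, cb_eq hir _ _ _ h6, cb_eq hkr _ _ _ h6]
    exact ⟨h7.symm, A', List.prefix_append _ _, rfl, rfl⟩
  have altc : (∀ n, n < R → cb r k n Sc ≤ cb r i n Sc ∧ cb r i n Sc ≤ cb r k n Sc + 1) ∨
      (∀ n, n < R → cb r i n Sc ≤ cb r k n Sc ∧ cb r k n Sc ≤ cb r i n Sc + 1) := by
    rcases hTalt with h | h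
    · left
      intro n hn
      obtain ⟨A, h1, h2, h3⟩ := (sums n hn).2
      have h4 := h (fl {i, k} A) (by rw [← hrc.2]; exact fl_prefix h1)
      rw [count_fl (by simp), count_fl (by simp)] at h4
      rw [h2, h3]; exact h4
    · right
      intro n hn
      obtain ⟨A, h1, h2, h3⟩ := (sums n hn).2
      have h4 := h (fl {i, k} A) (by rw [← hrc.2]; exact fl_prefix h1)
      rw [count_fl (by simp), count_fl (by simp)] at h4
      rw [h2, h3]; exact h4
  have even : ∀ n, n < R → (cb r i n Sb + cb r k n Sb) % 2 = 0 := by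
    intro n hn
    have h1 := rc n hn
    have h2 := (sums n hn).1
    rcases altc with h | h
    · have h3 := h n hn
      have h4 := h (R - 1 - n) (by omega)
      omega
    · have h3 := h n hn
      have h4 := h (R - 1 - n) (by omega)
      omega
  -- EIP inequalities for `k` in `Sb`
  have eip : ∀ n, n < R → 2 * (R : ℤ) * cb r k n Sb - 2 * q * n ≤ q + R ∧
      -((q : ℤ) + R) ≤ 2 * R * cb r k n Sb - 2 * q * (n + 1) := by
    intro n hn
    obtain ⟨A, B, h1, h2⟩ := exists_split (r := r) (S := Sb) (n := n) (by omega)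
    have h3 : cb r k n Sb = A.count k := by rw [h1]; exact cb_eq hkr _ _ _ h2
    have hA : A <+: Sb := ⟨r :: B, h1.symm⟩
    have hA' : A ++ [r] <+: Sb := ⟨B, by rw [h1]; simp⟩
    have h4 := hEIP (fl {k, r} A) (by rw [← hrb.2]; exact fl_prefix hA)
    have h5 := hEIP (fl {k, r} (A ++ [r])) (by rw [← hrb.2]; exact fl_prefix hA')
    rw [count_fl (by simp), count_fl (by simp), h2] at h4
    rw [count_fl (by simp), count_fl (by simp), List.count_append, List.count_append, h2] at h5
    simp only [List.count_singleton_self, List.count_singleton, hkr.symm, beq_iff_eq,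
      if_false, add_zero] at h5
    push_cast at h5
    rw [h3]
    exact ⟨h4.2, h5.1⟩
  have hqZ : (q : ℤ) < R := by exact_mod_cast hqR
  have hq0 : (0 : ℤ) < q := by exact_mod_cast hq
  have ge : ∀ n, n < R → cb r k n Sb ≤ cb r i n Sb := by
    intro n
    induction n with
    | zero =>
      intro hn
      have h1 := (eip 0 hn).1
      have h2 : (cb r k 0 Sb : ℤ) < 1 := by
        by_contra hcon
        push Not at hcon
        push_cast at h1
        nlinarith
      omega
    | succ n ih =>
      intro hn
      have h0 := ih (by omega)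
      have h1 := (eip (n + 1) hn).1
      have h2 := (eip n (by omega)).2
      have h3 : (cb r k (n + 1) Sb : ℤ) < cb r k n Sb + 2 := by
        by_contra hcon
        push Not at hcon
        push_cast at h1
        nlinarith
      have h4 := cb_mono r i Sb n
      have h5 := even n (by omega)
      have h6 := even (n + 1) hn
      omega
  have eqn : ∀ n, n < R → cb r i n Sb = cb r k n Sb := by
    intro n hn
    have h1 := ge n hn
    have h2 := ge (R - 1 - n) (by omega)
    have h3 := rb n hn
    omega
  -- near EIP for `i` in `Sb`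
  have near : ∀ P, P <+: Sb → -((q : ℤ) + R) ≤ 2 * R * P.count i - 2 * q * P.count r ∧
      2 * (R : ℤ) * P.count i - 2 * q * P.count r ≤ q + R := by
    rintro P ⟨Q, hQ⟩
    have hPp : P <+: Sb := ⟨Q, hQ⟩
    have hrle := hPp.sublist.count_le r
    have hile := hPp.sublist.count_le i
    rw [cb3] at hrle
    rw [cb1] at hile
    constructor
    · rcases Nat.eq_zero_or_pos (P.count r) with h0 | h0
      · rw [h0]; push_cast
        have : (0 : ℤ) ≤ P.count i := by positivity
        nlinarith
      · have h1 := cb_le_count hir P Q (P.count r - 1) (by omega)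
        rw [hQ, eqn _ (by omega)] at h1
        have h2 := (eip (P.count r - 1) (by omega)).2
        have h3 : ((P.count r - 1 : ℕ) : ℤ) + 1 = P.count r := by
          push_cast [Nat.cast_sub h0]; ring
        rw [h3] at h2
        have h4 : (cb r k (P.count r - 1) Sb : ℤ) ≤ P.count i := by exact_mod_cast h1
        nlinarith
    · rcases Nat.lt_or_ge (P.count r) R with h0 | h0
      · have h1 := count_le_cb hir P Q
        rw [hQ, eqn _ h0] at h1
        have h2 := (eip (P.count r) h0).1
        have h4 : (P.count i : ℤ) ≤ cb r k (P.count r) Sb := by exact_mod_cast h1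
        nlinarith
      · have h1 : P.count r = R := by omega
        rw [h1]
        have h4 : (P.count i : ℤ) ≤ q := by exact_mod_cast hile
        nlinarith
  -- transport to `Sa`
  have hVe : fl {i, r} Sa = V := hra.2
  have hPV' : P <+: fl {i, r} Sa := by rw [hVe]; exact hPV
  obtain ⟨Pa, hPa, rfl⟩ := prefix_fl hPV'
  rw [count_fl (by simp), count_fl (by simp)]
  obtain ⟨Pb, hPb, hc1, hc2, _⟩ := rewrites_take' hrb hPa
  have hci : Pb.count i = Pa.count i := hc1 i (by simp [hik, hir])
  rw [length_pair hkr, length_pair hkr] at hc2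
  have hn := near Pb hPb
  rw [hci] at hn
  have hb1 : Pa.count k ≤ q := by
    have h1 := hPa.sublist.count_le k
    have h2 := (cnt hSa).2.1
    omega
  have hb2 : Pb.count k ≤ q := by
    have h1 := hPb.sublist.count_le k
    omega
  have hc2' : (Pb.count k : ℤ) + Pb.count r = Pa.count k + Pa.count r := by exact_mod_cast hc2
  have hb1' : (Pa.count k : ℤ) ≤ q := by exact_mod_cast hb1
  have hb2' : (Pb.count k : ℤ) ≤ q := by exact_mod_cast hb2
  have hk0 : (0 : ℤ) ≤ Pa.count k := by positivity
  have hk0' : (0 : ℤ) ≤ Pb.count k := by positivity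
  have hu : (Pa.count r : ℤ) ≤ Pb.count r + q := by linarith
  have hl : (Pb.count r : ℤ) ≤ Pa.count r + q := by linarith
  constructor
  · nlinarith [hn.1, hn.2]
  · nlinarith [hn.1, hn.2]

end Pool.Agent.X72.EIP
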