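import Pool.Agent.X72.EIP.Defs

set_option autoImplicit false
set_option linter.unusedSectionVars false
set_option linter.unusedSimpArgs false

/-!
# List lemmas for the sequencing problem
-/

namespace Pool.Agent.X72.EIP

open List

variable {ι : Type*} [DecidableEq ι]

/-- The restriction of a word to the letters of `N`. -/
abbrev fl (N : Finset ι) (S : List ι) : List ι := S.filter (fun x => decide (x ∈ N))

theorem count_fl {N : Finset ι} {S : List ι} {i : ι} (h : i ∈ N) :
    (fl N S).count i = S.count i := by
  rw [List.count_filter]; simpa using h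

theorem prefix_fl {N : Finset ι} : ∀ {S P : List ι}, P <+: fl N S → ∃ P', P' <+: S ∧ fl N P' = P
  | [], P, h => by
    have : P = [] := by simpa [fl] using h
    exact ⟨[], List.prefix_rfl, by simp [this]⟩
  | x :: S, P, h => by
    by_cases hx : x ∈ N
    · have e : fl N (x :: S) = x :: fl N S := by simp [fl, hx]
      rw [e] at h
      rcases P with _ | ⟨y, P⟩
      · exact ⟨[], List.nil_prefix, rfl⟩
      · rw [List.cons_prefix_cons] at h
        obtain ⟨P', h1, h2⟩ := prefix_fl h.2
        refine ⟨x :: P', List.cons_prefix_cons.2 ⟨rfl, h1⟩, ?_⟩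
        have e2 : fl N (x :: P') = x :: fl N P' := by simp [fl, hx]
        rw [e2, h2, h.1]
    · have e : fl N (x :: S) = fl N S := by simp [fl, hx]
      rw [e] at h
      obtain ⟨P', h1, h2⟩ := prefix_fl h
      refine ⟨x :: P', List.cons_prefix_cons.2 ⟨rfl, h1⟩, ?_⟩
      have e2 : fl N (x :: P') = fl N P' := by simp [fl, hx]
      rw [e2, h2]

theorem fl_prefix {N : Finset ι} {S P : List ι} (h : P <+: S) : fl N P <+: fl N S := by
  obtain ⟨t, rfl⟩ := h
  exact ⟨fl N t, by simp [fl]⟩

/-- The position-wise relation in a rewriting. -/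
abbrev Rel (N : Finset ι) (x y : ι) : Prop := (x ∈ N ∧ y ∈ N) ∨ (x ∉ N ∧ y = x)

theorem rel_count {N : Finset ι} {S S' : List ι} (h : List.Forall₂ (Rel N) S S') {k : ι}
    (hk : k ∉ N) : S'.count k = S.count k := by
  induction h with
  | nil => rfl
  | cons h1 h2 ih =>
    rename_i x y l l'
    rcases h1 with ⟨hx, hy⟩ | ⟨hx, hy⟩
    · have e1 : x ≠ k := fun e => hk (e ▸ hx)
      have e2 : y ≠ k := fun e => hk (e ▸ hy)
      rw [List.count_cons_of_ne e1, List.count_cons_of_ne e2, ih]
    · subst hy
      rw [List.count_cons, List.count_cons, ih]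

theorem rel_length {N : Finset ι} {S S' : List ι} (h : List.Forall₂ (Rel N) S S') :
    (fl N S').length = (fl N S).length := by
  induction h with
  | nil => rfl
  | cons h1 h2 ih =>
    rename_i x y l l'
    rcases h1 with ⟨hx, hy⟩ | ⟨hx, hy⟩
    · simp only [fl, List.filter_cons, hx, hy, decide_true, if_true, List.length_cons]
      simpa [fl] using ih
    · subst hy
      simp only [fl, List.filter_cons, hx, decide_false] at ih ⊢
      simpa using ih

theorem length_pair {k c : ι} (hkc : k ≠ c) (S : List ι) :
    (fl {k, c} S).length = S.count k + S.count c := by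
  induction S with
  | nil => rfl
  | cons x S ih =>
    by_cases hx : x ∈ ({k, c} : Finset ι)
    · have e : fl {k, c} (x :: S) = x :: fl {k, c} S := by
        unfold fl; rw [List.filter_cons_of_pos (by simpa using hx)]
      rw [e, List.length_cons, ih]
      simp only [Finset.mem_insert, Finset.mem_singleton] at hx
      rcases hx with hx | hx
      · subst hx
        rw [List.count_cons_self, List.count_cons_of_ne hkc]; omega
      · subst hx
        rw [List.count_cons_self, List.count_cons_of_ne hkc.symm]; omega
    · have e : fl {k, c} (x :: S) = fl {k, c} S := by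
        unfold fl; rw [List.filter_cons_of_neg (by simpa using hx)]
      rw [e, ih]
      simp only [Finset.mem_insert, Finset.mem_singleton, not_or] at hx
      rw [List.count_cons_of_ne hx.1, List.count_cons_of_ne hx.2]

/-- Count relations between the prefixes of a word and of a rewriting. -/
theorem rewrites_take {N : Finset ι} {S T S' : List ι} (h : Rewrites N S T S') {P : List ι}
    (hP : P <+: S') : ∃ P', P' <+: S ∧ (∀ k, k ∉ N → P.count k = P'.count k) ∧
      (fl N P).length = (fl N P').length ∧ P.length = P'.length := by
  have hl := h.1.length_eq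
  refine ⟨S.take P.length, List.take_prefix _ _, ?_, ?_, ?_⟩
  · intro k hk
    have := rel_count (List.forall₂_take P.length h.1) hk
    rw [← this]
    congr 1
    exact (List.prefix_iff_eq_take.1 hP)
  · have := rel_length (List.forall₂_take P.length h.1)
    rw [← this]
    congr 2
    exact (List.prefix_iff_eq_take.1 hP)
  · rw [List.length_take]
    have := hP.length_le
    omega

theorem rewrites_take' {N : Finset ι} {S T S' : List ι} (h : Rewrites N S T S') {P : List ι}
    (hP : P <+: S) : ∃ P', P' <+: S' ∧ (∀ k, k ∉ N → P'.count k = P.count k) ∧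
      (fl N P').length = (fl N P).length ∧ P'.length = P.length := by
  have hl := h.1.length_eq
  refine ⟨S'.take P.length, List.take_prefix _ _, ?_, ?_, ?_⟩
  · intro k hk
    have := rel_count (List.forall₂_take P.length h.1) hk
    rw [this]
    congr 1
    exact (List.prefix_iff_eq_take.1 hP).symm
  · have := rel_length (List.forall₂_take P.length h.1)
    rw [this]
    congr 2
    exact (List.prefix_iff_eq_take.1 hP).symm
  · rw [List.length_take]
    have := hP.length_le
    omega

theorem exists_rewrites {N : Finset ι} : ∀ {S T : List ι}, (∀ x ∈ T, x ∈ N) →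
    T.length = (fl N S).length → ∃ S', Rewrites N S T S'
  | [], T, _, h => by
    have : T = [] := by simpa [fl] using h
    exact ⟨[], List.Forall₂.nil, by simp [this]⟩
  | x :: S, T, hT, h => by
    by_cases hx : x ∈ N
    · have e : fl N (x :: S) = x :: fl N S := by simp [fl, hx]
      rw [e] at h
      rcases T with _ | ⟨t, T⟩
      · simp at h
      · have ht : t ∈ N := hT t (by simp)
        obtain ⟨S', h1, h2⟩ := exists_rewrites (S := S) (T := T)
          (fun x hx => hT x (by simp [hx])) (by simpa using h)
        exact ⟨t :: S', List.Forall₂.cons (Or.inl ⟨hx, ht⟩) h1, by simp [ht, h2]⟩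
    · have e : fl N (x :: S) = fl N S := by simp [fl, hx]
      rw [e] at h
      obtain ⟨S', h1, h2⟩ := exists_rewrites (S := S) (T := T) hT h
      exact ⟨x :: S', List.Forall₂.cons (Or.inr ⟨hx, rfl⟩) h1, by simp [hx, h2]⟩

theorem exists_split {r : ι} : ∀ {S : List ι} {n : ℕ}, n < S.count r →
    ∃ A B, S = A ++ r :: B ∧ A.count r = n
  | [], n, h => by simp at h
  | x :: S, n, h => by
    by_cases hx : x = r
    · subst hx
      rcases n with _ | n
      · exact ⟨[], S, rfl, rfl⟩
      · rw [List.count_cons_self] at h
        obtain ⟨A, B, h1, h2⟩ := exists_split (r := x) (S := S) (n := n) (by omega)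
        exact ⟨x :: A, B, by simp [h1], by rw [List.count_cons_self, h2]⟩
    · rw [List.count_cons_of_ne hx] at h
      obtain ⟨A, B, h1, h2⟩ := exists_split (r := r) (S := S) (n := n) h
      exact ⟨x :: A, B, by simp [h1], by rw [List.count_cons_of_ne hx, h2]⟩

/-- The number of letters `i` before the `(n+1)`-st letter `r`. -/
def cb (r i : ι) : ℕ → List ι → ℕ
  | _, [] => 0
  | 0, x :: S => if x = r then 0 else (if x = i then 1 else 0) + cb r i 0 S
  | n + 1, x :: S => if x = r then cb r i n S else (if x = i then 1 else 0) + cb r i (n + 1) S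

theorem cb_eq {r i : ι} (hir : i ≠ r) : ∀ (A B : List ι) (n : ℕ), A.count r = n →
    cb r i n (A ++ r :: B) = A.count i
  | [], B, n, h => by
    simp only [List.count_nil] at h
    subst h
    simp [cb]
  | x :: A, B, n, h => by
    by_cases hx : x = r
    · subst hx
      rw [List.count_cons_self] at h
      subst h
      rw [List.cons_append, cb, if_pos rfl, cb_eq hir A B _ rfl, List.count_cons_of_ne hir.symm]
    · rw [List.count_cons_of_ne hx] at h
      have key := cb_eq hir A B n h
      rw [List.count_cons]
      rcases n with _ | n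
      · rw [List.cons_append, cb, if_neg hx, key]
        by_cases hxi : x = i
        · simp [hxi]; omega
        · simp [hxi]
      · rw [List.cons_append, cb, if_neg hx, key]
        by_cases hxi : x = i
        · simp [hxi]; omega
        · simp [hxi]

theorem cb_fl {r i : ι} (hir : i ≠ r) {N : Finset ι} (hi : i ∈ N) (hr : r ∈ N) {S : List ι}
    {n : ℕ} (hn : n < S.count r) : cb r i n (fl N S) = cb r i n S := by
  obtain ⟨A, B, h1, h2⟩ := exists_split hn
  have e : fl N S = fl N A ++ r :: fl N B := by
    rw [h1]; simp [fl, hr]
  rw [e, cb_eq hir _ _ n (by rw [count_fl hr, h2]), count_fl hi, h1, cb_eq hir _ _ n h2]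

theorem cb_reflect {S : List ι} {i r : ι} (hir : i ≠ r)
    (hpal : (fl {i, r} S).reverse = fl {i, r} S) {n : ℕ} (hn : n < S.count r) :
    cb r i n S + cb r i (S.count r - 1 - n) S = S.count i := by
  have hi : i ∈ ({i, r} : Finset ι) := by simp
  have hr : r ∈ ({i, r} : Finset ι) := by simp
  rw [← cb_fl hir hi hr hn, ← cb_fl hir hi hr (S := S) (n := S.count r - 1 - n) (by omega),
    ← count_fl hi, ← count_fl hr (S := S)]
  rw [← count_fl hr (S := S)] at hn
  set V := fl {i, r} S with hV
  clear_value V
  obtain ⟨A, B, h1, h2⟩ := exists_split hn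
  have hcV : V.count r = n + 1 + B.count r := by
    rw [h1, List.count_append, List.count_cons_self, h2]; omega
  have hci : V.count i = A.count i + B.count i := by
    rw [h1, List.count_append, List.count_cons_of_ne hir.symm]
  have hrev : V = B.reverse ++ r :: A.reverse := by
    rw [← hpal, h1]; simp
  have e1 : cb r i n V = A.count i := by rw [h1]; exact cb_eq hir _ _ _ h2
  have e2 : cb r i (V.count r - 1 - n) V = B.count i := by
    have : V.count r - 1 - n = B.count r := by omega
    rw [this, hrev, cb_eq hir _ _ _ (by simp)]
    simp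
  rw [e1, e2, hci]

/-- Transport of a splitting at `r ∉ N` through a rewriting. -/
theorem rel_split {N : Finset ι} {r : ι} (hr : r ∉ N) : ∀ {A B S' : List ι},
    List.Forall₂ (Rel N) (A ++ r :: B) S' →
    ∃ A' B', S' = A' ++ r :: B' ∧ List.Forall₂ (Rel N) A A'
  | [], B, S', h => by
    rw [List.nil_append] at h
    cases h with
    | cons h1 h2 =>
      rename_i y l'
      rcases h1 with ⟨h3, _⟩ | ⟨_, h3⟩
      · exact absurd h3 hr
      · subst h3
        exact ⟨[], l', rfl, List.Forall₂.nil⟩
  | x :: A, B, S', h => by
    rw [List.cons_append] at h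
    cases h with
    | cons h1 h2 =>
      rename_i y l'
      obtain ⟨A', B', h3, h4⟩ := rel_split hr h2
      exact ⟨y :: A', B', by simp [h3], List.Forall₂.cons h1 h4⟩

/-- Prefixes of powers of a word. -/
theorem prefix_replicate {S : List ι} : ∀ {m : ℕ} {P : List ι}, 1 ≤ m →
    P <+: (List.replicate m S).flatten → ∃ t P', t < m ∧ P' <+: S ∧
      P = (List.replicate t S).flatten ++ P'
  | 0, P, h, _ => by omega
  | m + 1, P, _, h => by
    rw [List.replicate_succ, List.flatten_cons] at h
    rcases List.prefix_or_prefix_of_prefix h (List.prefix_append S _) with h1 | h1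
    · exact ⟨0, P, by omega, h1, by simp⟩
    · obtain ⟨P2, rfl⟩ := h1
      rw [List.prefix_append_right_inj] at h
      rcases Nat.eq_zero_or_pos m with hm | hm
      · subst hm
        have : P2 = [] := by simpa using h
        subst this
        exact ⟨0, S, by omega, List.prefix_rfl, by simp⟩
      · obtain ⟨t, P', h1, h2, h3⟩ := prefix_replicate hm h
        refine ⟨t + 1, P', by omega, h2, ?_⟩
        rw [List.replicate_succ, List.flatten_cons, h3, List.append_assoc]

theorem count_flatten_replicate (S : List ι) (i : ι) : ∀ t : ℕ,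
    (List.replicate t S).flatten.count i = t * S.count i
  | 0 => by simp
  | t + 1 => by
    rw [List.replicate_succ, List.flatten_cons, List.count_append, count_flatten_replicate S i t]
    ring

end Pool.Agent.X72.EIP
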