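import Pool.Agent.X72.EIP.LemC

set_option autoImplicit false
set_option linter.unusedSectionVars false
set_option linter.unusedSimpArgs false

/-!
# Uniqueness of the earliest-ideal-position method: conclusion
-/

namespace Pool.Agent.X72.EIP

open List

variable {ι : Type*} [DecidableEq ι] {F : (ι →₀ ℕ) → Set (List ι)}

/-- Lemma B: all two-model words with even numbers are EIP. -/
theorem lemmaB_even (hM : IsMethod F) (hP : Periodic F) (hU : Uniform F)
    (hR : WeaklyReflective F) {i k r : ι} (hik : i ≠ k) (hir : i ≠ r) (hkr : k ≠ r) {a b : ℕ}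
    (ha : 0 < a) (hb : 0 < b) (hae : Even a) (hbe : Even b) {T : List ι}
    (hT : T ∈ F (two i a k b)) {P : List ι} (hPT : P <+: T) :
    2 * (b : ℤ) * P.count i - 2 * a * P.count k ≤ a + b := by
  set M : ℕ := 2 * a * b + 2 * a ^ 2 * b + 2 * b ^ 2 * a with hMdef
  set R : ℕ := a * b * M + 1 with hRdef
  have habpos : 0 < a * b := by positivity
  have hMpos : 0 < M := by positivity
  have hRM : M < R := by
    have : M ≤ a * b * M := Nat.le_mul_of_pos_left _ habpos
    omega
  have hRo : Odd R := by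
    rw [hRdef]
    exact Even.add_one ((hae.mul_right b).mul_right M)
  have hca : Nat.Coprime a R := by
    rw [hRdef]
    have : a * b * M + 1 = 1 + (b * M) * a := by ring
    rw [this]
    simp
  have hcb : Nat.Coprime b R := by
    rw [hRdef]
    have : a * b * M + 1 = 1 + (a * M) * b := by ring
    rw [this]
    simp
  have haR : a < R := by
    have : a ≤ M := by
      rw [hMdef]
      have : a ≤ 2 * a * b := by nlinarith
      omega
    omega
  have hbR : b < R := by
    have : b ≤ M := by
      rw [hMdef]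
      have : b ≤ 2 * a * b := by nlinarith
      omega
    omega
  have hRpos : 0 < R := by omega
  obtain ⟨S, hS⟩ := hM.nonempty _ (three_ne hik hir hkr (b := b) (n := R) ha)
  obtain ⟨S1, hS1, hr1⟩ := (three_ik hM hU hik hir hkr ha hb hRpos hS).2 T hT
  have hTe : fl {i, k} S1 = T := hr1.2
  rw [← hTe] at hPT
  obtain ⟨P1, hP1, rfl⟩ := prefix_fl hPT
  rw [count_fl (by simp), count_fl (by simp)]
  have h1 := lemmaC hM hP hU hR hik hir hkr ha hae hRo hca haR
    (three_ic hM hU hik hir hkr ha hb hRpos hS1).1 (fl_prefix hP1)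
  have h2 := lemmaC hM hP hU hR hik.symm hkr hir hb hbe hRo hcb hbR
    (three_kc hM hU hik hir hkr ha hb hRpos hS1).1 (fl_prefix hP1)
  rw [count_fl (by simp), count_fl (by simp)] at h1 h2
  have h3 := h1.2
  have h4 := h2.1
  by_contra hcon
  push Not at hcon
  have hcon' : (a : ℤ) + b + 1 ≤ 2 * b * P1.count i - 2 * a * P1.count k := hcon
  have haZ : (0 : ℤ) < a := by exact_mod_cast ha
  have hbZ : (0 : ℤ) < b := by exact_mod_cast hb
  have hRZ : (0 : ℤ) < R := by exact_mod_cast hRpos
  have hRMZ : (2 * a * b + 2 * a ^ 2 * b + 2 * b ^ 2 * a : ℤ) < R := by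
    have : ((2 * a * b + 2 * a ^ 2 * b + 2 * b ^ 2 * a : ℕ) : ℤ) < R := by exact_mod_cast hRM
    push_cast at this
    exact this
  have k1 := mul_le_mul_of_nonneg_left h3 hbZ.le
  have k2 := mul_le_mul_of_nonneg_left h4 haZ.le
  have k3 := mul_le_mul_of_nonneg_left hcon' hRZ.le
  nlinarith

/-- Lemma B: all two-model words are EIP. -/
theorem lemmaB (hM : IsMethod F) (hP : Periodic F) (hU : Uniform F)
    (hR : WeaklyReflective F) {i k r : ι} (hik : i ≠ k) (hir : i ≠ r) (hkr : k ≠ r) {a b : ℕ}
    (ha : 0 < a) (hb : 0 < b) {T : List ι}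
    (hT : T ∈ F (two i a k b)) {P : List ι} (hPT : P <+: T) :
    2 * (b : ℤ) * P.count i - 2 * a * P.count k ≤ a + b := by
  have h1 := hP _ (two_ne hik ha) 2 (by norm_num) T hT
  have e : 2 • two i a k b = two i (2 * a) k (2 * b) := by
    unfold two
    rw [smul_add, Finsupp.smul_single, Finsupp.smul_single, smul_eq_mul, smul_eq_mul]
  rw [e] at h1
  have h2 : P <+: (List.replicate 2 T).flatten := by
    refine hPT.trans ⟨T, ?_⟩
    simp [List.replicate_succ]
  have h3 := lemmaB_even hM hP hU hR hik hir hkr (a := 2 * a) (b := 2 * b) (by omega) (by omega)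
    (even_two_mul a) (even_two_mul b) h1 h2
  push_cast at h3
  linarith

/-- The prefix characterisation of EIP words. -/
def PrefixEIP (q : ι →₀ ℕ) (S : List ι) : Prop :=
  IsSeq q S ∧ ∀ P, P <+: S → ∀ i ∈ q.support, ∀ k ∈ q.support,
    (2 * (P.count i : ℤ) - 1) * q k ≤ (2 * P.count k + 1) * q i

theorem prefixEIP_of (h3 : ∀ a b : ι, ∃ c, c ≠ a ∧ c ≠ b) (hM : IsMethod F) (hP : Periodic F)
    (hU : Uniform F) (hR : WeaklyReflective F) {q : ι →₀ ℕ} (hq : q ≠ 0) {S : List ι}
    (hS : S ∈ F q) : PrefixEIP q S := by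
  refine ⟨hM.seq q hq S hS, fun P hPS i hi k hk => ?_⟩
  by_cases hik : i = k
  · subst hik
    have h1 := hPS.sublist.count_le i
    have h2 : (0 : ℤ) ≤ q i := by positivity
    nlinarith
  obtain ⟨r, hri, hrk⟩ := h3 i k
  have hsub : ({i, k} : Finset ι) ⊆ q.support := by
    intro x hx
    simp only [Finset.mem_insert, Finset.mem_singleton] at hx
    rcases hx with hx | hx
    · subst hx; exact hi
    · subst hx; exact hk
  have h1 := (hU q hq {i, k} ⟨i, by simp⟩ hsub S hS).1
  have e : q.filter (· ∈ ({i, k} : Finset ι)) = two i (q i) k (q k) := by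
    ext x
    rw [Finsupp.filter_apply]
    by_cases h1 : x = i
    · subst h1; simp [Ne.symm hik, hik]
    · by_cases h2 : x = k
      · subst h2; simp [hik, Ne.symm hik]
      · simp [h1, h2, Finsupp.single_apply, Ne.symm h1, Ne.symm h2]
  rw [e] at h1
  have hqi : 0 < q i := Nat.pos_of_ne_zero (Finsupp.mem_support_iff.1 hi)
  have hqk : 0 < q k := Nat.pos_of_ne_zero (Finsupp.mem_support_iff.1 hk)
  have h2 := lemmaB hM hP hU hR hik hri.symm hrk.symm hqi hqk h1 (fl_prefix hPS)
  rw [count_fl (by simp), count_fl (by simp)] at h2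
  linarith

end Pool.Agent.X72.EIP
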